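import Mathlib.Data.Real.Basic
import Mathlib.LinearAlgebra.Matrix.Notation
import Mathlib.LinearAlgebra.Matrix.Determinant.Basic

/-!
# G1, gauge gH: the 10 x 10 matrix whose determinant is `-P`

Columns: `phi0 phi1 phi2 psi0 psi1 psi2 V b tau lam`; rows: `Lc n1 n2 Rc n3 n4 V b tau lam`.
`P_B = B V - s^2 b`, `P_T = T V + s^2 b` (`s = B + T`).
Everything is polymorphic: it is used over `ℝ`, `ℤ`, polynomial rings and expression trees.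
-/

set_option autoImplicit false

namespace Pool.G1.KRON

/-- chamber data: `B`, the left gaps `g0 g1 g2`, the right gaps `g3 g4 g5` (from `B` upwards),
`c1 c2`, the masses `m1 m2`. -/
structure Dt (α : Type*) where
  B : α
  g0 : α
  g1 : α
  g2 : α
  g3 : α
  g4 : α
  g5 : α
  c1 : α
  c2 : α
  m1 : α
  m2 : α

namespace Dt

variable {α : Type*} [Add α] [Sub α] [Mul α] [Neg α] [NatCast α]

/-- numerals -/
abbrev k (n : ℕ) : α := (n : α)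

def a1 (d : Dt α) : α := d.B + d.g0
def a2 (d : Dt α) : α := d.a1 + d.g1
def T (d : Dt α) : α := d.a2 + d.g2
def b2 (d : Dt α) : α := d.B + d.g3
def b1 (d : Dt α) : α := d.b2 + d.g4
def s (d : Dt α) : α := d.B + d.T
def H (d : Dt α) : α := d.g0 + d.g1 + d.g2
def M (d : Dt α) : α := d.m1 + d.m2
def C (d : Dt α) : α := d.m1 * d.c1 + d.m2 * d.c2
def S1 (d : Dt α) : α := d.g0 + d.g5
def S2 (d : Dt α) : α := (d.g0 + d.g1) + (d.g4 + d.g5)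
def S1c (d : Dt α) : α := (d.g1 + d.g2) + (d.g3 + d.g4)
def S2c (d : Dt α) : α := d.g2 + d.g3
def w0 (d : Dt α) : α := d.m1 * d.S1c + d.m2 * d.S2c
def w1 (d : Dt α) : α := d.m1 * d.S1 + d.m2 * d.S2c
def w2 (d : Dt α) : α := d.m1 * d.S1 + d.m2 * d.S2
def E0 (d : Dt α) : α := d.g0 * (d.B + d.a1)
def E1 (d : Dt α) : α := d.g1 * (d.a1 + d.a2)
def E2 (d : Dt α) : α := d.g2 * (d.a2 + d.T)
def F0 (d : Dt α) : α := d.g3 * (d.B + d.b2)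
def F1 (d : Dt α) : α := d.g4 * (d.b2 + d.b1)
def F2 (d : Dt α) : α := d.g5 * (d.b1 + d.T)
def s2 (d : Dt α) : α := d.s * d.s
def TB (d : Dt α) : α := d.T * d.B
/-- `B^3 + T^3 - a^3 - b^3 - (3 B^2 + ...)`: `3 (v T β - u B α) - c (u^2 + u v + v^2)`,
`u = α - B`, `v = T - β`, `c = u - v` -/
def n6 (d : Dt α) (c u v al be : α) : α :=
  k 3 * (v * d.T * be - u * d.B * al) - c * (u * u + u * v + v * v)
def N6 (d : Dt α) : α :=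
  d.m1 * d.n6 d.c1 d.g0 d.g5 d.a1 d.b1 + d.m2 * d.n6 d.c2 (d.g0 + d.g1) (d.g4 + d.g5) d.a2 d.b2

def rLc (d : Dt α) : Fin 10 → α :=
  ![d.E0, d.E1, d.E2, k 0, k 0, k 0, -d.H, -(k 2 * d.s2), k 0, k 0]
def rn1 (d : Dt α) : Fin 10 → α :=
  ![d.a1 * d.w0 - k 2 * d.m1 * d.E0, -(d.a1 * d.w1), k 0, k 0, k 0, k 0,
    -(k 2 * d.m1 * d.B), k 2 * d.m1 * d.s2, d.m1 * d.a1 * d.a1, d.m1 * d.a1]
def rn2 (d : Dt α) : Fin 10 → α :=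
  ![k 0, d.a2 * d.w1, -(d.a2 * d.w2 - k 2 * d.m2 * d.E2), k 0, k 0, k 0,
    -(k 2 * d.m2 * d.T), -(k 2 * d.m2 * d.s2), d.m2 * d.a2 * d.a2, d.m2 * d.a2]
def rRc (d : Dt α) : Fin 10 → α :=
  ![k 0, k 0, k 0, d.F0, d.F1, d.F2, -d.H, -(k 2 * d.s2), k 0, k 0]
def rn3 (d : Dt α) : Fin 10 → α :=
  ![k 0, k 0, k 0, d.b2 * d.w2 - k 2 * d.m2 * d.F0, -(d.b2 * d.w1), k 0,
    -(k 2 * d.m2 * d.B), k 2 * d.m2 * d.s2, d.m2 * d.b2 * d.b2, d.m2 * d.b2]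
def rn4 (d : Dt α) : Fin 10 → α :=
  ![k 0, k 0, k 0, k 0, d.b1 * d.w1, -(d.b1 * d.w0 - k 2 * d.m1 * d.F2),
    -(k 2 * d.m1 * d.T), -(k 2 * d.m1 * d.s2), d.m1 * d.b1 * d.b1, d.m1 * d.b1]
def rV (d : Dt α) : Fin 10 → α :=
  ![-(k 6 * d.B * d.w0), k 0, k 6 * d.T * d.w2, -(k 6 * d.B * d.w2), k 0, k 6 * d.T * d.w0,
    k 12 * d.M * d.s, k 4 * d.H * d.C,
    -(k 6 * d.M * (d.B * d.B + d.T * d.T) + k 3 * d.s * d.C), -(k 6 * d.M * d.s + k 3 * d.C)]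
def rb (d : Dt α) : Fin 10 → α :=
  ![k 6 * d.s2 * d.TB * d.w0, k 0, k 6 * d.s2 * d.TB * d.w2, k 6 * d.s2 * d.TB * d.w2, k 0,
    k 6 * d.s2 * d.TB * d.w0, k 4 * d.TB * d.H * d.C,
    d.s2 * (k 12 * d.M * d.s * d.s2 - k 4 * d.C * (k 2 * d.s2 + d.H * d.H)),
    d.TB * d.s * d.H * (d.C - k 6 * d.M * d.s), k 0]
def rt (d : Dt α) : Fin 10 → α :=
  ![k 24 * d.m1 * d.a1 * d.E0, k 0, -(k 24 * d.m2 * d.a2 * d.E2), k 24 * d.m2 * d.b2 * d.F0, k 0,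
    -(k 24 * d.m1 * d.b1 * d.F2), -(k 12 * d.H * (d.C + k 2 * (d.m1 * d.g5 + d.m2 * d.g2))),
    k 4 * d.s * (d.H * d.C - k 6 * d.s * (d.m1 * (d.g0 + d.g5) + d.m2 * (d.g2 + d.g3))),
    k 4 * d.N6, -(k 3 * d.s * d.C)]
def rl (d : Dt α) : Fin 10 → α :=
  ![k 8 * d.m1 * d.E0, k 0, -(k 8 * d.m2 * d.E2), k 8 * d.m2 * d.F0, k 0, -(k 8 * d.m1 * d.F2),
    -(k 4 * d.C), k 0, -(d.s * d.C), k 0]

/-- the entries -/
def ent (d : Dt α) : Fin 10 → Fin 10 → α :=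
  ![d.rLc, d.rn1, d.rn2, d.rRc, d.rn3, d.rn4, d.rV, d.rb, d.rt, d.rl]

/-- the matrix -/
def mat (d : Dt α) : Matrix (Fin 10) (Fin 10) α := Matrix.of d.ent

end Dt

section
variable {α : Type*} [Add α] [Neg α]

/-- the chambers in the variables `B, x1, .., x5` (masses `m1, m2`) -/
def chA (B x1 x2 x3 x4 x5 m1 m2 : α) : Dt α :=
  ⟨B, x1 + x4, x3 + x5, x2, x2 + x4 + x5, x3, x1, x4, x4 + x5, m1, m2⟩
def chB (B x1 x2 x3 x4 x5 m1 m2 : α) : Dt α :=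
  ⟨B, x1 + x4, x3, x2 + x5, x2, x3 + x4 + x5, x1, x4, -x5, m1, m2⟩
def chC (B x1 x2 x3 x4 x5 m1 m2 : α) : Dt α :=
  ⟨B, x1, x3 + x5, x2 + x4, x2, x3, x1 + x4 + x5, -(x4 + x5), -x4, m1, m2⟩
end

end Pool.G1.KRON
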