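/-!
# Numeric program for the determinant of the 10 x 10 matrix of `MG` (gauge gH)

Core only.  Polymorphic part: block elimination (left chain, right chain, then a symmetric 4 x 4
matrix in `V, b, tau, lam`); numeric part: exact division on signed naturals.
-/

set_option autoImplicit false

namespace Pool.G1.KRON

/-- signed naturals (kernel friendly) -/
structure SN where
  s : Bool
  n : Nat

namespace SN
def mul (a b : SN) : SN := ⟨xor a.s b.s, Nat.mul a.n b.n⟩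
def add (a b : SN) : SN :=
  cond (a.s == b.s) ⟨a.s, Nat.add a.n b.n⟩
    (cond (Nat.ble b.n a.n) ⟨a.s, Nat.sub a.n b.n⟩ ⟨b.s, Nat.sub b.n a.n⟩)
def neg (a : SN) : SN := ⟨not a.s, a.n⟩
def sub (a b : SN) : SN := add a (neg b)
def div (a b : SN) : SN := ⟨xor a.s b.s, Nat.div a.n b.n⟩
def beq (a b : SN) : Bool := (a.s == b.s) && Nat.beq a.n b.n
instance : Mul SN := ⟨mul⟩
instance : Add SN := ⟨add⟩
instance : Sub SN := ⟨sub⟩
instance : Neg SN := ⟨neg⟩
instance : NatCast SN := ⟨fun n => ⟨false, n⟩⟩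
/-- code of a signed natural -/
def enc (a : SN) : Nat := cond a.s (Nat.add (Nat.mul 2 a.n) 1) (Nat.mul 2 a.n)
/-- decode -/
def dec (m : Nat) : SN := ⟨Nat.beq (Nat.mod m 2) 1, Nat.div m 2⟩
end SN

/-- output of a chain -/
structure CO (α : Type _) where
  d : α
  BB : α
  TT : α
  BT : α
  Bt : α
  Bl : α
  Tt : α
  Tl : α
  tt : α
  tl : α
  ll : α

/-- numeric input -/
structure DN (α : Type _) where
  B : α
  g0 : α
  g1 : α
  g2 : α
  g3 : α
  g4 : α
  g5 : α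
  c1 : α
  c2 : α
  m1 : α
  m2 : α

/-- determinants of the chains, `T B` and the symmetric 4 x 4 matrix -/
structure SS (α : Type _) where
  dL : α
  dR : α
  TB : α
  VV : α
  Vb : α
  Vt : α
  Vl : α
  bb : α
  bt : α
  bl : α
  tt : α
  tl : α
  ll : α

section
variable {α : Type _} [Add α] [Sub α] [Mul α] [NatCast α] [Neg α]

/-- chain with nodes `1,2` between `B` and `T` -/
def chain (w0 w1 w2 E0 E1 E2 y1 y2 m1 m2 : α) : CO α :=
  let two : α := ((2 : Nat) : α)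
  let four : α := ((4 : Nat) : α)
  let u1 := w0 * y1
  let v1 := w1 * y1
  let v2 := w1 * y2
  let u2 := w2 * y2
  let tm1 := two * m1
  let tm2 := two * m2
  let A2 := u2 - tm2 * E2
  let A1 := v1 - tm1 * E1
  let k1 := u1 * E1 + v1 * E0 - tm1 * (E0 * E1)
  let k2 := v2 * E2 + u2 * E1 - tm2 * (E1 * E2)
  let q1 := A1 * A2 - tm1 * E2 * v2
  let q2 := (v2 - tm2 * E1) * (u1 - tm1 * E0) - tm2 * E0 * v1
  let e1 := m1 * k2
  let e2 := m2 * k1
  let y1E := y1 * E0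
  let y2E := y2 * E2
  let h2 := m2 * y2E * w1
  let h1 := m1 * y1E * w1
  let f1 := y1E * m1 * e1
  let f2 := y2E * m2 * e2
  let f3 := y1E * y2E * (m1 * m2) * w1
  let tu1 := two * u1
  let tu2 := two * u2
  ⟨u1 * k2 + E0 * q1, w0 * q1, w2 * q2, -((y1 * y2) * (w0 * w2) * w1),
   tu1 * (y1 * e1 + y2 * h2), tu1 * (e1 + h2), tu2 * (y2 * e2 + y1 * h1), tu2 * (e2 + h1),
   -(four * ((y1 * y1) * f1 + (y2 * y2) * f2 + (two * (y1 * y2)) * f3)),
   -(four * (y1 * f1 + y2 * f2 + (y1 + y2) * f3)),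
   -(four * (f1 + f2 + two * f3))⟩

/-- `B^3 + T^3 - a^3 - b^3 - ...` of one state -/
def n6 (B T c u v al be : α) : α :=
  ((3 : Nat) : α) * (v * T * be - u * B * al) - c * (u * u + u * v + v * v)

/-- combination of the two chains -/
def comb (N L R dL dR d6L : α) : α := (N * dL + ((6 : Nat) : α) * L) * dR + R * d6L

/-- combination of the two chains, no direct entry -/
def comb0 (L R d6R d6L : α) : α := L * d6R + R * d6L

/-- the symmetric 4 x 4 matrix (times `6`, cleared of the chain determinants) -/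
def stageS (D : DN α) : SS α :=
  let B := D.B
  let a1 := B + D.g0
  let a2 := a1 + D.g1
  let T := a2 + D.g2
  let b2 := B + D.g3
  let b1 := b2 + D.g4
  let s := B + T
  let H := D.g0 + D.g1 + D.g2
  let m1 := D.m1
  let m2 := D.m2
  let M := m1 + m2
  let C := m1 * D.c1 + m2 * D.c2
  let S1 := D.g0 + D.g5
  let S2 := (D.g0 + D.g1) + (D.g4 + D.g5)
  let S1c := (D.g1 + D.g2) + (D.g3 + D.g4)
  let S2c := D.g2 + D.g3
  let w0 := m1 * S1c + m2 * S2c
  let w1 := m1 * S1 + m2 * S2c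
  let w2 := m1 * S1 + m2 * S2
  let E0 := D.g0 * (B + a1)
  let E1 := D.g1 * (a1 + a2)
  let E2 := D.g2 * (a2 + T)
  let F0 := D.g3 * (B + b2)
  let F1 := D.g4 * (b2 + b1)
  let F2 := D.g5 * (b1 + T)
  let s2 := s * s
  let TB := T * B
  let z := s2 * TB
  let L := chain w0 w1 w2 E0 E1 E2 a1 a2 m1 m2
  let R := chain w2 w1 w0 F0 F1 F2 b2 b1 m2 m1
  let N6 := m1 * n6 B T D.c1 D.g0 D.g5 a1 b1 + m2 * n6 B T D.c2 (D.g0 + D.g1) (D.g4 + D.g5) a2 b2
  let k2 : α := ((2 : Nat) : α)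
  let k4 : α := ((4 : Nat) : α)
  let k6 : α := ((6 : Nat) : α)
  let k12 : α := ((12 : Nat) : α)
  let B2 := B * B
  let T2 := T * T
  let z2 := z * z
  let tBT := k2 * TB
  let dL := L.d
  let dR := R.d
  let d6L := k6 * dL
  let d6R := k6 * dR
  ⟨dL, dR, TB,
   comb (k12 * M * s) (B2 * L.BB + tBT * L.BT + T2 * L.TT) (B2 * R.BB + tBT * R.BT + T2 * R.TT)
     dL dR d6L,
   comb (k4 * H * TB * C) (z * (T * L.TT - B * L.BB - H * L.BT)) (z * (T * R.TT - B * R.BB - H * R.BT))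
     dL dR d6L,
   comb (-(k12 * M * (B2 + T2) + k6 * s * C)) (B * L.Bt + T * L.Tt) (B * R.Bt + T * R.Tt) dL dR d6L,
   comb (-(k12 * M * s + k6 * C)) (B * L.Bl + T * L.Tl) (B * R.Bl + T * R.Tl) dL dR d6L,
   comb (z * (k12 * M * s * s2 - k4 * C * (k2 * s2 + H * H))) (z2 * (L.BB + L.TT - k2 * L.BT))
     (z2 * (R.BB + R.TT - k2 * R.BT)) dL dR d6L,
   comb (k2 * s * TB * H * (C - k6 * M * s)) (z * (L.Tt - L.Bt)) (z * (R.Tt - R.Bt)) dL dR d6L,
   comb0 (z * (L.Tl - L.Bl)) (z * (R.Tl - R.Bl)) d6R d6L,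
   comb (k4 * N6) L.tt R.tt dL dR d6L,
   comb (-(((3 : Nat) : α) * s * C)) L.tl R.tl dL dR d6L,
   comb0 L.ll R.ll d6R d6L⟩

end

/-- Bareiss elimination of the 4 x 4 matrix (order `V, lam, tau, b`) with exact divisions;
result `0` if a division is not exact, otherwise the code of the determinant. -/
def prog (D : DN SN) : Nat :=
  let q := stageS D
  let d := q.dL * q.dR
  let n11 := q.VV * q.ll - q.Vl * q.Vl
  let x11 := n11.div d
  let n12 := q.VV * q.tl - q.Vt * q.Vl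
  let x12 := n12.div d
  let n13 := q.VV * q.bl - q.Vb * q.Vl
  let x13 := n13.div d
  let n22 := q.VV * q.tt - q.Vt * q.Vt
  let x22 := n22.div d
  let n23 := q.VV * q.bt - q.Vb * q.Vt
  let x23 := n23.div d
  let n33 := q.VV * q.bb - q.Vb * q.Vb
  let x33 := n33.div d
  let r22 := x11 * x22 - x12 * x12
  let y22 := r22.div q.VV
  let r23 := x11 * x23 - x12 * x13
  let y23 := r23.div q.VV
  let r33 := x11 * x33 - x13 * x13
  let y33 := r33.div q.VV
  let e := x11 * (((3 : Nat) : SN) * q.TB)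
  let r := y22 * y33 - y23 * y23
  let v := r.div e
  cond ((x11 * d).beq n11 && ((x12 * d).beq n12 && ((x13 * d).beq n13 && ((x22 * d).beq n22 &&
    ((x23 * d).beq n23 && ((x33 * d).beq n33 && ((y22 * q.VV).beq r22 && ((y23 * q.VV).beq r23 &&
    ((y33 * q.VV).beq r33 && ((v * e).beq r && (not (Nat.beq e.n 0) && (not (Nat.beq q.VV.n 0) &&
    not (Nat.beq d.n 0))))))))))))) v.enc 0

/-- chambers -/
def dnA (B x1 x2 x3 x5 m1 m2 : SN) : DN SN :=
  let one : SN := ((1 : Nat) : SN)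
  ⟨B, x1 + one, x3 + x5, x2, x2 + one + x5, x3, x1, one, one + x5, m1, m2⟩
def dnB (B x1 x2 x3 x5 m1 m2 : SN) : DN SN :=
  let one : SN := ((1 : Nat) : SN)
  ⟨B, x1 + one, x3, x2 + x5, x2, x3 + one + x5, x1, one, -x5, m1, m2⟩
def dnC (B x1 x2 x3 x5 m1 m2 : SN) : DN SN :=
  let one : SN := ((1 : Nat) : SN)
  ⟨B, x1, x3 + x5, x2 + one, x2, x3, x1 + one + x5, -(one + x5), -one, m1, m2⟩

/-- Kronecker point: bits, dims of `x1, x2, x3` -/
def kx1 (w : Nat) : Nat := Nat.pow 2 w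
def kx2 (w d1 : Nat) : Nat := Nat.pow (kx1 w) d1
def kx3 (w d1 d2 : Nat) : Nat := Nat.pow (kx2 w d1) d2
def kx5 (w d1 d2 d3 : Nat) : Nat := Nat.pow (kx3 w d1 d2) d3

def cst (n : Nat) : SN := ⟨false, n⟩

def progA (w d1 d2 d3 t B : Nat) : Nat :=
  prog (dnA (cst B) (cst (kx1 w)) (cst (kx2 w d1)) (cst (kx3 w d1 d2)) (cst (kx5 w d1 d2 d3))
    (cst 1) (cst t))
def progB (w d1 d2 d3 t B : Nat) : Nat :=
  prog (dnB (cst B) (cst (kx1 w)) (cst (kx2 w d1)) (cst (kx3 w d1 d2)) (cst (kx5 w d1 d2 d3))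
    (cst 1) (cst t))
def progC (w d1 d2 d3 t B : Nat) : Nat :=
  prog (dnC (cst B) (cst (kx1 w)) (cst (kx2 w d1)) (cst (kx3 w d1 d2)) (cst (kx5 w d1 d2 d3))
    (cst 1) (cst t))

end Pool.G1.KRON
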