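import Mathlib

/-!
# G1, LINE T: coefficients of a polynomial of degree at most 8 from its values at 1, ..., 9

`8! * a_k = sum_{j < 9} w k j * N (j + 1)` for `N t = sum_{m < 9} a_m t^m`.
-/

set_option autoImplicit false

namespace Pool.G1.VDM

/-- rows of `8! *` the inverse Vandermonde matrix of the nodes `1, ..., 9` -/
def wl : List (List ℤ) :=
  [[362880, -1451520, 3386880, -5080320, 5080320, -3386880, 1451520, -362880, 40320],
   [-663696, 3380544, -8452416, 13101984, -13356000, 9016896, -3898944, 981216, -109584],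
   [509004, -3000528, 8127728, -13142304, 13746600, -9442384, 4133808, -1050048, 118124],
   [-214676, 1394456, -4045104, 6845944, -7382200, 5180616, -2304176, 592424, -67284],
   [54649, -380072, 1165332, -2059064, 2294110, -1650264, 748132, -195272, 22449],
   [-8624, 63056, -202104, 371056, -427000, 315504, -146216, 38864, -4536],
   [826, -6272, 20832, -39536, 46900, -35616, 16912, -4592, 546],
   [-44, 344, -1176, 2296, -2800, 2184, -1064, 296, -36],
   [1, -8, 28, -56, 70, -56, 28, -8, 1]]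

/-- the weight of the value at `j + 1` in the coefficient `k` -/
def w (k j : ℕ) : ℤ := (wl.getD k []).getD j 0

/-- `w` is `8! *` the inverse Vandermonde matrix -/
theorem w_mul : ∀ k < 9, ∀ m < 9,
    (∑ j ∈ Finset.range 9, w k j * ((j : ℤ) + 1) ^ m) = if k = m then 40320 else 0 := by
  decide +kernel

/-- coefficients from values, any commutative ring -/
theorem coeff_of_values {R : Type*} [CommRing R] (a N : ℕ → R)
    (hN : ∀ j < 9, N (j + 1) = ∑ m ∈ Finset.range 9, a m * ((j : R) + 1) ^ m) (k : ℕ) (hk : k < 9) :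
    (40320 : R) * a k = ∑ j ∈ Finset.range 9, (w k j : R) * N (j + 1) := by
  have h1 : ∑ j ∈ Finset.range 9, (w k j : R) * N (j + 1) =
      ∑ m ∈ Finset.range 9, a m * ∑ j ∈ Finset.range 9, (w k j : R) * ((j : R) + 1) ^ m := by
    rw [Finset.sum_congr rfl fun j hj => by rw [hN j (Finset.mem_range.mp hj), Finset.mul_sum]]
    rw [Finset.sum_comm]
    refine Finset.sum_congr rfl fun m _ => ?_
    rw [Finset.mul_sum]
    refine Finset.sum_congr rfl fun j _ => ?_
    ring
  rw [h1]
  have h2 : ∀ m ∈ Finset.range 9, a m * ∑ j ∈ Finset.range 9, (w k j : R) * ((j : R) + 1) ^ m =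
      if k = m then 40320 * a k else 0 := by
    intro m hm
    have h3 := w_mul k hk m (Finset.mem_range.mp hm)
    have h4 : (∑ j ∈ Finset.range 9, (w k j : R) * ((j : R) + 1) ^ m) =
        ((∑ j ∈ Finset.range 9, w k j * ((j : ℤ) + 1) ^ m : ℤ) : R) := by
      push_cast
      rfl
    rw [h4, h3]
    by_cases hkm : k = m
    · subst hkm
      simp [mul_comm]
    · simp [hkm]
  rw [Finset.sum_congr rfl h2, Finset.sum_ite_eq]
  simp [hk]

/-- the same for `Polynomial R` with `natDegree <= 8` -/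
theorem coeff_of_eval {R : Type*} [CommRing R] (f : Polynomial R) (hf : f.natDegree ≤ 8) (k : ℕ)
    (hk : k < 9) :
    (40320 : R) * f.coeff k = ∑ j ∈ Finset.range 9, (w k j : R) * f.eval ((j : R) + 1) := by
  have := coeff_of_values (R := R) (fun m => f.coeff m) (fun t => f.eval ((t : R))) (fun j _ => by
    show f.eval ((j + 1 : ℕ) : R) = _
    rw [Polynomial.eval_eq_sum_range' (Nat.lt_succ_of_le hf)]
    push_cast
    rfl) k hk
  rw [this]
  refine Finset.sum_congr rfl fun j _ => ?_
  push_cast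
  rfl

/-- integer version: the value `a k` is `q` as soon as `8! q` is the weighted sum of the values -/
theorem coeff_eq (a N : ℕ → ℤ)
    (hN : ∀ j < 9, N (j + 1) = ∑ m ∈ Finset.range 9, a m * ((j : ℤ) + 1) ^ m) (k : ℕ) (hk : k < 9)
    (q : ℤ) (hq : 40320 * q = ∑ j ∈ Finset.range 9, w k j * N (j + 1)) : a k = q := by
  have h := coeff_of_values a N hN k hk
  have h2 : (∑ j ∈ Finset.range 9, ((w k j : ℤ) : ℤ) * N (j + 1)) = 40320 * q := hq.symm
  simp only [Int.cast_id] at h
  rw [h2] at h
  linarith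

/-- positive and negative part of the weights -/
def wp (k j : ℕ) : ℕ := (w k j).toNat
def wn (k j : ℕ) : ℕ := (-w k j).toNat

theorem w_split (k j : ℕ) : w k j = (wp k j : ℤ) - (wn k j : ℤ) := by
  unfold wp wn
  omega

/-- natural number version (`N` the values at `1, ..., 9`, `q` the coefficient) -/
theorem coeff_eq_nat (a : ℕ → ℤ) (N : ℕ → ℕ)
    (hN : ∀ j < 9, (N (j + 1) : ℤ) = ∑ m ∈ Finset.range 9, a m * ((j : ℤ) + 1) ^ m) (k : ℕ)
    (hk : k < 9) (q : ℕ)
    (hq : 40320 * q + ∑ j ∈ Finset.range 9, wn k j * N (j + 1) =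
      ∑ j ∈ Finset.range 9, wp k j * N (j + 1)) : a k = q := by
  refine coeff_eq a (fun t => (N t : ℤ)) hN k hk (q : ℤ) ?_
  have h : ((40320 * q + ∑ j ∈ Finset.range 9, wn k j * N (j + 1) : ℕ) : ℤ) =
      ((∑ j ∈ Finset.range 9, wp k j * N (j + 1) : ℕ) : ℤ) := by rw [hq]
  push_cast at h
  have h2 : ∑ j ∈ Finset.range 9, w k j * (N (j + 1) : ℤ) =
      ∑ j ∈ Finset.range 9, (wp k j : ℤ) * (N (j + 1) : ℤ) -
        ∑ j ∈ Finset.range 9, (wn k j : ℤ) * (N (j + 1) : ℤ) := by
    rw [← Finset.sum_sub_distrib]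
    refine Finset.sum_congr rfl fun j _ => ?_
    rw [w_split]
    ring
  rw [h2]
  linarith

end Pool.G1.VDM
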